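import Mathlib
import Pool.Agent.MP_6e06a5_co.Defs

section

namespace Pool.Agent.MP_6e06a5_co

open Finset
open scoped symmDiff

variable {V : Type*} [DecidableEq V]

lemma joinDeg_insert {J : Finset (Sym2 V)} {e : Sym2 V} (he : e ∉ J) (z : V) :
    joinDeg (insert e J) z = joinDeg J z + if z ∈ e then 1 else 0 := by
  unfold joinDeg
  rw [Finset.filter_insert]
  split_ifs with h
  · rw [Finset.card_insert_of_notMem]
    simp [he]
  · simp

lemma joinDeg_erase {J : Finset (Sym2 V)} {e : Sym2 V} (he : e ∈ J) (z : V) :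
    joinDeg (J.erase e) z + (if z ∈ e then 1 else 0) = joinDeg J z := by
  rw [← joinDeg_insert (Finset.notMem_erase e J), Finset.insert_erase he]

/-- toggling one edge -/
def tog (J : Finset (Sym2 V)) (e : Sym2 V) : Finset (Sym2 V) :=
  if e ∈ J then J.erase e else insert e J

lemma mem_tog {J : Finset (Sym2 V)} {e f : Sym2 V} (h : f ≠ e) : f ∈ tog J e ↔ f ∈ J := by
  unfold tog; split_ifs <;> simp [h]

lemma mem_tog_self {J : Finset (Sym2 V)} {e : Sym2 V} : e ∈ tog J e ↔ e ∉ J := by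
  unfold tog; split_ifs with h <;> simp [h]

/-- indicator in `ZMod 2` -/
def ind (p : Prop) [Decidable p] : ZMod 2 := if p then 1 else 0

lemma deg_tog (J : Finset (Sym2 V)) (e : Sym2 V) (z : V) :
    (joinDeg (tog J e) z : ZMod 2) = joinDeg J z + ind (z ∈ e) := by
  unfold tog ind
  split_ifs with h h2 h2
  · rw [← joinDeg_erase h z]; simp only [h2, if_true]; push_cast
    have : (1 : ZMod 2) + 1 = 0 := by decide
    rw [add_assoc, this, add_zero]
  · rw [← joinDeg_erase h z]; simp [h2]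
  · rw [joinDeg_insert h]; simp [h2]
  · rw [joinDeg_insert h]; simp [h2]

lemma ind_mk {x y : V} (h : x ≠ y) (z : V) :
    ind (z ∈ s(x, y)) = ind (z = x) + ind (z = y) := by
  unfold ind
  by_cases h1 : z = x
  · subst h1; simp [h]
  · by_cases h2 : z = y
    · subst h2; simp [h1]
    · simp [h1, h2]

lemma odd_iff_cast (n : ℕ) (p : Prop) [Decidable p] :
    (Odd n ↔ p) ↔ (n : ZMod 2) = ind p := by
  unfold ind
  by_cases hp : p
  · simp [hp, ZMod.natCast_eq_one_iff_odd]
  · simp [hp, ZMod.natCast_eq_zero_iff_even]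

lemma isJoin_iff (G : SimpleGraph V) (D : Finset V) (J : Finset (Sym2 V)) :
    IsJoin G D J ↔ (∀ e ∈ J, e ∈ G.edgeSet) ∧ ∀ v, (joinDeg J v : ZMod 2) = ind (v ∈ D) := by
  unfold IsJoin
  simp only [odd_iff_cast]

lemma two_z (a : ZMod 2) : a + a = 0 := by revert a; decide

lemma exists_path_join (G : SimpleGraph V) {x y : V} (h : G.Reachable x y)
    (J : Finset (Sym2 V)) (hJ : ∀ e ∈ J, e ∈ G.edgeSet) :
    ∃ J' : Finset (Sym2 V), (∀ e ∈ J', e ∈ G.edgeSet) ∧
      ∀ z, (joinDeg J' z : ZMod 2) = joinDeg J z + ind (z = x) + ind (z = y) := by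
  rw [SimpleGraph.reachable_iff_reflTransGen] at h
  induction h with
  | refl => exact ⟨J, hJ, fun z => by rw [add_assoc, two_z, add_zero]⟩
  | @tail b c _ hbc ih =>
    obtain ⟨J', h1, h2⟩ := ih
    refine ⟨tog J' s(b, c), ?_, fun z => ?_⟩
    · intro e he
      by_cases hh : e = s(b, c)
      · rw [hh]; exact hbc
      · exact h1 e ((mem_tog hh).1 he)
    · rw [deg_tog, h2, ind_mk hbc.ne]
      have := two_z (ind (z = b))
      linear_combination this

lemma exists_join (G : SimpleGraph V) (hG : G.Preconnected) (D : Finset V) (hD : Even D.card) :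
    ∃ J, IsJoin G D J := by
  rcases D.eq_empty_or_nonempty with rfl | ⟨o, -⟩
  · exact ⟨∅, by simp, by simp [joinDeg]⟩
  have key : ∀ D : Finset V, ∃ J : Finset (Sym2 V), (∀ e ∈ J, e ∈ G.edgeSet) ∧
      ∀ z, (joinDeg J z : ZMod 2) = ind (z ∈ D) + D.card * ind (z = o) := by
    intro D
    induction D using Finset.induction_on with
    | empty => exact ⟨∅, by simp, by simp [joinDeg, ind]⟩
    | insert a D ha ih =>
      obtain ⟨J, h1, h2⟩ := ih
      obtain ⟨J', h3, h4⟩ := exists_path_join G (hG a o) J h1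
      refine ⟨J', h3, fun z => ?_⟩
      rw [h4, h2, Finset.card_insert_of_notMem ha]
      have : ind (z ∈ insert a D) = ind (z ∈ D) + ind (z = a) := by
        unfold ind
        by_cases h : z = a
        · subst h; simp [ha]
        · simp [h]
      rw [this]; push_cast; ring
  obtain ⟨J, h1, h2⟩ := key D
  refine ⟨J, (isJoin_iff G D J).2 ⟨h1, fun v => ?_⟩⟩
  rw [h2, (ZMod.natCast_eq_zero_iff_even).2 hD]; simp

/-- The orientation of the edges between `B` and `W`: edges of `J` go from `B` to `W`,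
other edges go from `W` to `B`. -/
def Ori (G : SimpleGraph V) (J : Finset (Sym2 V)) (B W : Set V) (x y : V) : Prop :=
  G.Adj x y ∧ ((x ∈ B ∧ y ∈ W ∧ s(x, y) ∈ J) ∨ (x ∈ W ∧ y ∈ B ∧ s(x, y) ∉ J))

inductive Trail (G : SimpleGraph V) (J : Finset (Sym2 V)) (B W : Set V) (x : V) :
    V → Finset (Sym2 V) → Prop
  | base : Trail G J B W x x J
  | step (y z : V) (J' : Finset (Sym2 V)) : Trail G J B W x y J' → Ori G J B W y z →
      (s(y, z) ∈ J' ↔ s(y, z) ∈ J) → Trail G J B W x z (tog J' s(y, z))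

open Classical in
lemma Trail.props {G : SimpleGraph V} {J : Finset (Sym2 V)} {B W : Set V} (hBW : Disjoint B W)
    (hJ : ∀ e ∈ J, e ∈ G.edgeSet) {x y : V} {J' : Finset (Sym2 V)} (h : Trail G J B W x y J') :
    (∀ e ∈ J', e ∈ G.edgeSet) ∧
    (∀ z, (joinDeg J' z : ZMod 2) = joinDeg J z + ind (z = x) + ind (z = y)) ∧
    ((J'.card : ℤ) + (if y ∈ W then 1 else 0) = J.card + (if x ∈ W then 1 else 0)) ∧
    (∀ e, ¬ (e ∈ J' ↔ e ∈ J) → ∃ a b, e = s(a, b) ∧ Ori G J B W a b ∧
      ∃ J'', Trail G J B W x b J'') := by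
  induction h with
  | base =>
    refine ⟨hJ, fun z => by rw [add_assoc, two_z, add_zero], rfl, fun e he => absurd Iff.rfl he⟩
  | step y z J' hT hO hm ih =>
    obtain ⟨h1, h2, h3, h4⟩ := ih
    refine ⟨?_, ?_, ?_, ?_⟩
    · intro e he
      by_cases hh : e = s(y, z)
      · rw [hh]; exact hO.1
      · exact h1 e ((mem_tog hh).1 he)
    · intro t
      rw [deg_tog, h2, ind_mk hO.1.ne]
      have := two_z (ind (t = y))
      linear_combination this
    · rcases hO.2 with ⟨hy, hz, he⟩ | ⟨hy, hz, he⟩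
      · have hy' : y ∉ W := Set.disjoint_left.1 hBW hy
        have he' : s(y, z) ∈ J' := hm.2 he
        simp only [hy', if_false] at h3
        simp only [hz, if_true]
        rw [← h3]
        unfold tog
        rw [if_pos he', ← Finset.card_erase_add_one he']
        push_cast; ring
      · have hz' : z ∉ W := Set.disjoint_left.1 hBW hz
        have he' : s(y, z) ∉ J' := fun h => he (hm.1 h)
        simp only [hy, if_true] at h3
        simp only [hz', if_false]
        rw [← h3]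
        unfold tog
        rw [if_neg he', Finset.card_insert_of_notMem he']
        push_cast; ring
    · intro e he
      by_cases hh : e = s(y, z)
      · exact ⟨y, z, hh, hO, _, Trail.step y z J' hT hO hm⟩
      · rw [mem_tog hh] at he
        exact h4 e he

lemma exists_trail {G : SimpleGraph V} {J : Finset (Sym2 V)} {B W : Set V} (hBW : Disjoint B W)
    (hJ : ∀ e ∈ J, e ∈ G.edgeSet) {x y : V} (h : Relation.ReflTransGen (Ori G J B W) x y) :
    ∃ J', Trail G J B W x y J' := by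
  induction h with
  | refl => exact ⟨J, Trail.base⟩
  | @tail b c _ hbc ih =>
    obtain ⟨J', hT⟩ := ih
    by_cases hm : (s(b, c) ∈ J' ↔ s(b, c) ∈ J)
    · exact ⟨_, Trail.step b c J' hT hbc hm⟩
    · obtain ⟨a', b', he, hO, J'', hT'⟩ := (hT.props hBW hJ).2.2.2 _ hm
      rcases Sym2.eq_iff.1 he with ⟨rfl, rfl⟩ | ⟨rfl, rfl⟩
      · exact ⟨J'', hT'⟩
      · exfalso
        rcases hbc.2 with ⟨h1, h2, h3⟩ | ⟨h1, h2, h3⟩ <;>
        rcases hO.2 with ⟨h4, h5, h6⟩ | ⟨h4, h5, h6⟩
        · exact Set.disjoint_left.1 hBW h1 h5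
        · exact h6 (Sym2.eq_swap ▸ h3)
        · exact h3 (Sym2.eq_swap ▸ h6)
        · exact Set.disjoint_left.1 hBW h5 h1

/-- In a minimum join no edge of the join has both ends on one side and joined by an oriented path. -/
lemma no_same_side {G : SimpleGraph V} {D : Finset V} {J : Finset (Sym2 V)} {B W : Set V}
    (hBW : Disjoint B W) (hJ : IsMinJoin G D J) {x y : V}
    (h : Relation.ReflTransGen (Ori G J B W) x y)
    (hs : (x ∈ B ∧ y ∈ B) ∨ (x ∈ W ∧ y ∈ W)) (he : s(x, y) ∈ J) : False := by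
  classical
  obtain ⟨J', hT⟩ := exists_trail hBW hJ.1.1 h
  obtain ⟨h1, h2, h3, h4⟩ := hT.props hBW hJ.1.1
  have hxy : x ≠ y := (G.mem_edgeSet.1 (hJ.1.1 _ he)).ne
  have he' : s(x, y) ∈ J' := by
    by_contra hn
    obtain ⟨a, b, hab, hO, -⟩ := h4 s(x, y) (fun hh => hn (hh.2 he))
    have hd := Set.disjoint_left.1 hBW
    rcases Sym2.eq_iff.1 hab with ⟨rfl, rfl⟩ | ⟨rfl, rfl⟩ <;>
    rcases hO.2 with ⟨h5, h6, -⟩ | ⟨h5, h6, -⟩ <;>
    rcases hs with ⟨h7, h8⟩ | ⟨h7, h8⟩
    all_goals first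
      | exact hd h8 h6 | exact hd h5 h7 | exact hd h7 h5 | exact hd h6 h8
      | exact hd h7 h6 | exact hd h5 h8 | exact hd h8 h5 | exact hd h6 h7
  have hj : IsJoin G D (tog J' s(x, y)) := by
    rw [isJoin_iff]
    refine ⟨fun e hee => ?_, fun t => ?_⟩
    · by_cases hh : e = s(x, y)
      · rw [hh]; exact hJ.1.1 _ he
      · exact h1 e ((mem_tog hh).1 hee)
    · rw [deg_tog, h2, ind_mk hxy, ← ((isJoin_iff G D J).1 hJ.1).2 t]
      have a1 := two_z (ind (t = x))
      have a2 := two_z (ind (t = y))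
      linear_combination a1 + a2
  have hle := hJ.2 _ hj
  have hc : (tog J' s(x, y)).card + 1 = J'.card := by
    unfold tog; rw [if_pos he', Finset.card_erase_add_one he']
  have hxyW : (x ∈ W ↔ y ∈ W) := by
    have hd := Set.disjoint_left.1 hBW
    rcases hs with ⟨h7, h8⟩ | ⟨h7, h8⟩
    · exact iff_of_false (hd h7) (hd h8)
    · exact iff_of_true h7 h8
  simp only [hxyW] at h3
  omega

end Pool.Agent.MP_6e06a5_co

end

section

namespace Pool.Agent.MP_6e06a5_co

open Finset

variable {A : Type*} [AddCommGroup A] [DecidableEq A]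

/-- Abstract square grid on an abelian group, with odd order generators. -/
structure Grid (G : SimpleGraph A) (Perp : A → A → Prop) : Prop where
  adj : ∀ p q, Perp p q → ∀ x y, G.Adj x y ↔ (y = x + p ∨ y = x - p ∨ y = x + q ∨ y = x - q)
  neg : ∀ p q, Perp p q → Perp (-p) q
  swap : ∀ p q, Perp p q → Perp q p
  ne0 : ∀ p q, Perp p q → p + p ≠ 0
  ne2 : ∀ p q, Perp p q → p + p ≠ q + q
  odd : ∀ p q, Perp p q → ∃ k : ℕ, k • (p + p) = p

namespace Grid
variable {G : SimpleGraph A} {Perp : A → A → Prop} (H : Grid G Perp)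
include H

omit [DecidableEq A] in
lemma neg' {p q : A} (h : Perp p q) : Perp p (-q) := H.swap _ _ (H.neg _ _ (H.swap _ _ h))

omit [DecidableEq A] in
lemma facts {p q : A} (h : Perp p q) :
    p ≠ 0 ∧ q ≠ 0 ∧ p ≠ q ∧ p ≠ -q ∧ p ≠ -p ∧ q ≠ -q := by
  have a1 := H.ne0 p q h
  have a2 := H.ne0 q p (H.swap _ _ h)
  have a3 := H.ne2 p q h
  have a4 := H.ne2 p (-q) (H.neg' h)
  refine ⟨?_, ?_, ?_, ?_, ?_, ?_⟩
  · rintro rfl; simp at a1
  · rintro rfl; simp at a2
  · rintro rfl; simp at a3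
  · rintro rfl; simp at a4
  · intro hh; exact a1 (by nth_rewrite 1 [hh]; simp)
  · intro hh; exact a2 (by nth_rewrite 1 [hh]; simp)

omit [DecidableEq A] in
lemma dir {p q p' q' : A} (h : Perp p q) (h' : Perp p' q') :
    p' = p ∨ p' = -p ∨ p' = q ∨ p' = -q := by
  have := (H.adj p q h 0 p').1 ((H.adj p' q' h' 0 p').2 (Or.inl (by simp)))
  simpa using this

omit [DecidableEq A] in
lemma axis {p q p' q' : A} (h : Perp p q) (h' : Perp p' q') (hq : q' = q ∨ q' = -q) :
    p' = p ∨ p' = -p := by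
  obtain ⟨-, -, f3, f4, -, -⟩ := H.facts h'
  rcases H.dir h h' with h1 | h1 | h1 | h1
  · exact Or.inl h1
  · exact Or.inr h1
  · rcases hq with h2 | h2
    · exact absurd (h1.trans h2.symm) f3
    · exact absurd (by rw [h1, h2, neg_neg]) f4
  · rcases hq with h2 | h2
    · exact absurd (by rw [h1, h2]) f4
    · exact absurd (h1.trans h2.symm) f3

lemma deg_eq {p q : A} (h : Perp p q) {J : Finset (Sym2 A)} (hJ : ∀ e ∈ J, e ∈ G.edgeSet) (x : A) :
    joinDeg J x = (if s(x, x + p) ∈ J then 1 else 0) + (if s(x, x - p) ∈ J then 1 else 0) +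
      (if s(x, x + q) ∈ J then 1 else 0) + (if s(x, x - q) ∈ J then 1 else 0) := by
  obtain ⟨f1, f2, f3, f4, f5, f6⟩ := H.facts h
  have hset : J.filter (fun e => x ∈ e) =
      ({s(x, x + p), s(x, x - p), s(x, x + q), s(x, x - q)} : Finset (Sym2 A)).filter (· ∈ J) := by
    ext e
    simp only [Finset.mem_filter, Finset.mem_insert, Finset.mem_singleton]
    constructor
    · rintro ⟨he, hx⟩
      refine ⟨?_, he⟩
      obtain ⟨y, rfl⟩ := Sym2.mem_iff_exists.1 hx
      have := (H.adj p q h x y).1 (G.mem_edgeSet.1 (hJ _ he))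
      rcases this with rfl | rfl | rfl | rfl <;> simp
    · rintro ⟨h1, he⟩
      refine ⟨he, ?_⟩
      rcases h1 with rfl | rfl | rfl | rfl <;> simp
  have ne : ∀ a b : A, a ≠ b → s(x, x + a) ≠ s(x, x + b) := by
    intro a b hab hh
    rw [Sym2.congr_right] at hh
    exact hab (add_left_cancel hh)
  have n1 : s(x, x + p) ≠ s(x, x - p) := by rw [sub_eq_add_neg]; exact ne _ _ f5
  have n2 : s(x, x + p) ≠ s(x, x + q) := ne _ _ f3
  have n3 : s(x, x + p) ≠ s(x, x - q) := by rw [sub_eq_add_neg]; exact ne _ _ f4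
  have n4 : s(x, x - p) ≠ s(x, x + q) := by
    rw [sub_eq_add_neg]; exact ne _ _ (fun hh => f4 (by rw [← hh, neg_neg]))
  have n5 : s(x, x - p) ≠ s(x, x - q) := by
    rw [sub_eq_add_neg, sub_eq_add_neg]; exact ne _ _ (fun hh => f3 (neg_injective hh))
  have n6 : s(x, x + q) ≠ s(x, x - q) := by rw [sub_eq_add_neg]; exact ne _ _ f6
  unfold joinDeg
  rw [hset, Finset.card_filter, Finset.sum_insert (by simp only [Finset.mem_insert, Finset.mem_singleton, not_or]; exact ⟨n1, n2, n3⟩),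
    Finset.sum_insert (by simp only [Finset.mem_insert, Finset.mem_singleton, not_or]; exact ⟨n4, n5⟩),
    Finset.sum_insert (by simp only [Finset.mem_singleton]; exact n6), Finset.sum_singleton]
  ring

end Grid

/-- The flip of the plaquette with corners `v, v+p, v+q, v+p+q`. -/
def flip (J : Finset (Sym2 A)) (v p q : A) : Finset (Sym2 A) :=
  tog (tog (tog (tog J s(v, v + p)) s(v, v + q)) s(v + p, v + p + q)) s(v + q, v + p + q)

lemma mem_flip {J : Finset (Sym2 A)} {v p q : A} {e : Sym2 A} (h1 : e ≠ s(v, v + p))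
    (h2 : e ≠ s(v, v + q)) (h3 : e ≠ s(v + p, v + p + q)) (h4 : e ≠ s(v + q, v + p + q)) :
    e ∈ flip J v p q ↔ e ∈ J := by
  unfold flip
  rw [mem_tog h4, mem_tog h3, mem_tog h2, mem_tog h1]

lemma card_tog (J : Finset (Sym2 A)) (e : Sym2 A) :
    ((tog J e).card : ℤ) = J.card + if e ∈ J then -1 else 1 := by
  unfold tog
  split_ifs with h
  · rw [← Finset.card_erase_add_one h]; push_cast; ring
  · rw [Finset.card_insert_of_notMem h]; push_cast; ring

lemma joinDeg_tog (J : Finset (Sym2 A)) (e : Sym2 A) (z : A) :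
    (joinDeg (tog J e) z : ℤ) =
      joinDeg J z + (if e ∈ J then -1 else 1) * (if z ∈ e then 1 else 0) := by
  unfold tog
  by_cases h : e ∈ J
  · simp only [h, if_true]
    rw [← joinDeg_erase h z]; push_cast; ring
  · simp only [h, if_false]
    rw [joinDeg_insert h]; push_cast; ring

namespace Grid
variable {G : SimpleGraph A} {Perp : A → A → Prop} (H : Grid G Perp)
include H

omit [DecidableEq A] in
lemma corners {p q : A} (h : Perp p q) (v : A) :
    v ≠ v + p ∧ v ≠ v + q ∧ v ≠ v + p + q ∧ v + p ≠ v + q ∧ v + p ≠ v + p + q ∧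
      v + q ≠ v + p + q := by
  obtain ⟨f1, f2, f3, f4, f5, f6⟩ := H.facts h
  refine ⟨?_, ?_, ?_, ?_, ?_, ?_⟩
  · intro hh; exact f1 (by simpa using hh)
  · intro hh; exact f2 (by simpa using hh)
  · intro hh; apply f4; rw [add_assoc] at hh
    have : p + q = 0 := by simpa using hh
    exact eq_neg_of_add_eq_zero_left this
  · intro hh; exact f3 (add_left_cancel hh)
  · intro hh; exact f2 (by simpa using hh)
  · intro hh; apply f1; rw [add_right_comm] at hh; simpa using hh

omit [DecidableEq A] in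
lemma edges_ne {p q : A} (h : Perp p q) (v : A) :
    s(v, v + p) ≠ s(v, v + q) ∧ s(v, v + p) ≠ s(v + p, v + p + q) ∧
    s(v, v + p) ≠ s(v + q, v + p + q) ∧ s(v, v + q) ≠ s(v + p, v + p + q) ∧
    s(v, v + q) ≠ s(v + q, v + p + q) ∧ s(v + p, v + p + q) ≠ s(v + q, v + p + q) := by
  obtain ⟨c1, c2, c3, c4, c5, c6⟩ := H.corners h v
  refine ⟨?_, ?_, ?_, ?_, ?_, ?_⟩ <;> intro hh <;> rcases Sym2.eq_iff.1 hh with ⟨a, b⟩ | ⟨a, b⟩ <;>
    first | exact c1 a | exact c2 a | exact c3 a | exact c4 a | exact c5 a | exact c6 a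
          | exact c1 b | exact c2 b | exact c3 b | exact c4 b | exact c5 b | exact c6 b

omit [DecidableEq A] in
lemma adjs {p q : A} (h : Perp p q) (v : A) :
    G.Adj v (v + p) ∧ G.Adj v (v + q) ∧ G.Adj (v + p) (v + p + q) ∧ G.Adj (v + q) (v + p + q) := by
  refine ⟨(H.adj p q h _ _).2 (by simp), (H.adj p q h _ _).2 (by simp),
    (H.adj p q h _ _).2 (by simp), (H.adj p q h _ _).2 (Or.inl (add_right_comm _ _ _))⟩

lemma flip_mem {p q : A} (h : Perp p q) (J : Finset (Sym2 A)) (v : A) :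
    (s(v, v + p) ∈ flip J v p q ↔ s(v, v + p) ∉ J) ∧
    (s(v, v + q) ∈ flip J v p q ↔ s(v, v + q) ∉ J) ∧
    (s(v + p, v + p + q) ∈ flip J v p q ↔ s(v + p, v + p + q) ∉ J) ∧
    (s(v + q, v + p + q) ∈ flip J v p q ↔ s(v + q, v + p + q) ∉ J) := by
  obtain ⟨e1, e2, e3, e4, e5, e6⟩ := H.edges_ne h v
  unfold flip
  refine ⟨?_, ?_, ?_, ?_⟩
  · rw [mem_tog e3, mem_tog e2, mem_tog e1, mem_tog_self]
  · rw [mem_tog e5, mem_tog e4, mem_tog_self, mem_tog e1.symm]
  · rw [mem_tog e6, mem_tog_self, mem_tog e4.symm, mem_tog e2.symm]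
  · rw [mem_tog_self, mem_tog e6.symm, mem_tog e5.symm, mem_tog e3.symm]

lemma flip_isJoin {p q : A} (h : Perp p q) {D : Finset A} {J : Finset (Sym2 A)}
    (hJ : IsJoin G D J) (v : A) : IsJoin G D (flip J v p q) := by
  obtain ⟨c1, c2, c3, c4, c5, c6⟩ := H.corners h v
  obtain ⟨a1, a2, a3, a4⟩ := H.adjs h v
  rw [isJoin_iff] at hJ ⊢
  refine ⟨fun e he => ?_, fun t => ?_⟩
  · by_cases h1 : e = s(v, v + p)
    · rw [h1]; exact a1
    by_cases h2 : e = s(v, v + q)
    · rw [h2]; exact a2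
    by_cases h3 : e = s(v + p, v + p + q)
    · rw [h3]; exact a3
    by_cases h4 : e = s(v + q, v + p + q)
    · rw [h4]; exact a4
    exact hJ.1 e ((mem_flip h1 h2 h3 h4).1 he)
  · unfold flip
    rw [deg_tog, deg_tog, deg_tog, deg_tog, ind_mk c1, ind_mk c2, ind_mk c5, ind_mk c6, hJ.2]
    have b1 := two_z (ind (t = v))
    have b2 := two_z (ind (t = v + p))
    have b3 := two_z (ind (t = v + q))
    have b4 := two_z (ind (t = v + p + q))
    linear_combination b1 + b2 + b3 + b4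

lemma flip_card {p q : A} (h : Perp p q) (J : Finset (Sym2 A)) (v : A) :
    ((flip J v p q).card : ℤ) = J.card + (if s(v, v + p) ∈ J then -1 else 1) +
      (if s(v, v + q) ∈ J then -1 else 1) + (if s(v + p, v + p + q) ∈ J then -1 else 1) +
      (if s(v + q, v + p + q) ∈ J then -1 else 1) := by
  obtain ⟨e1, e2, e3, e4, e5, e6⟩ := H.edges_ne h v
  unfold flip
  rw [card_tog, card_tog, card_tog, card_tog]
  simp only [mem_tog e1.symm, mem_tog e2.symm, mem_tog e3.symm, mem_tog e4.symm, mem_tog e5.symm,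
    mem_tog e6.symm]

lemma flip_deg {p q : A} (h : Perp p q) {J : Finset (Sym2 A)} {v : A} (h1 : s(v, v + p) ∈ J)
    (h2 : s(v, v + q) ∈ J) (h3 : s(v + p, v + p + q) ∉ J) (h4 : s(v + q, v + p + q) ∉ J) (z : A) :
    (joinDeg (flip J v p q) z : ℤ) =
      joinDeg J z - (if z = v then 2 else 0) + (if z = v + p + q then 2 else 0) := by
  obtain ⟨e1, e2, e3, e4, e5, e6⟩ := H.edges_ne h v
  obtain ⟨c1, c2, c3, c4, c5, c6⟩ := H.corners h v
  unfold flip
  rw [joinDeg_tog, joinDeg_tog, joinDeg_tog, joinDeg_tog]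
  simp only [mem_tog e1.symm, mem_tog e2.symm, mem_tog e3.symm, mem_tog e4.symm, mem_tog e5.symm,
    mem_tog e6.symm, h1, h2, h3, h4, if_true, if_false, Sym2.mem_iff]
  by_cases z1 : z = v
  · subst z1; simp only [c1, c2, c3, true_or, or_self, if_true, if_false]; ring
  by_cases z2 : z = v + p
  · subst z2; simp only [z1, c4, c5, true_or, or_true, or_self, if_true, if_false]; ring
  by_cases z3 : z = v + q
  · subst z3; simp only [z1, z2, c6, true_or, or_true, or_self, if_true, if_false]; ring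
  by_cases z4 : z = v + p + q
  · subst z4; simp only [z1, z2, z3, or_true, or_self, if_true, if_false]; ring
  simp only [z1, z2, z3, z4, or_self, if_false]; ring

end Grid

end Pool.Agent.MP_6e06a5_co

end

section

namespace Pool.Agent.MP_6e06a5_co

open Finset

variable {A : Type*} [AddCommGroup A] [DecidableEq A]

structure St (A : Type*) where
  J : Finset (Sym2 A)
  v : A
  p : A
  q : A

/-- total degree of the defects -/
def Phi (D : Finset A) (J : Finset (Sym2 A)) : ℕ := ∑ v ∈ D, joinDeg J v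

structure Good (G : SimpleGraph A) (Perp : A → A → Prop) (D : Finset A) (s : St A) : Prop where
  min : IsMinJoin G D s.J
  phi : ∀ J', IsMinJoin G D J' → Phi D s.J ≤ Phi D J'
  mem : s.v ∈ D
  perp : Perp s.p s.q
  hp : s(s.v, s.v + s.p) ∈ s.J
  hq : s(s.v, s.v + s.q) ∈ s.J
  hq' : s(s.v, s.v - s.q) ∈ s.J
  hp' : s(s.v, s.v - s.p) ∉ s.J

structure Step (s t : St A) : Prop where
  J : t.J = flip s.J s.v s.p s.q
  v : t.v = s.v + s.p + s.q
  dir : (t.p = -s.p ∧ t.q = s.q) ∨ (t.p = -s.q ∧ t.q = s.p)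

namespace Grid
variable {G : SimpleGraph A} {Perp : A → A → Prop} (H : Grid G Perp) {D : Finset A}
include H

lemma far {s : St A} (hs : Good G Perp D s) :
    s(s.v + s.p, s.v + s.p + s.q) ∉ s.J ∧ s(s.v + s.q, s.v + s.p + s.q) ∉ s.J := by
  have h1 := hs.min.2 _ (H.flip_isJoin hs.perp hs.min.1 s.v)
  have h2 := H.flip_card hs.perp s.J s.v
  simp only [hs.hp, hs.hq, if_true] at h2
  constructor <;> intro hh <;> simp only [hh, if_true] at h2 <;> split_ifs at h2 <;> omega

lemma flip_min {s : St A} (hs : Good G Perp D s) : IsMinJoin G D (flip s.J s.v s.p s.q) := by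
  refine ⟨H.flip_isJoin hs.perp hs.min.1 s.v, fun J' hJ' => ?_⟩
  have h1 := hs.min.2 _ hJ'
  have h2 := H.flip_card hs.perp s.J s.v
  simp only [hs.hp, hs.hq, (H.far hs).1, (H.far hs).2, if_true, if_false] at h2
  omega

lemma exists_step {s : St A} (hs : Good G Perp D s) : ∃ t, Good G Perp D t ∧ Step s t := by
  obtain ⟨f1, f2⟩ := H.far hs
  have hmin := H.flip_min hs
  obtain ⟨c1, c2, c3, c4, c5, c6⟩ := H.corners hs.perp s.v
  obtain ⟨m1, m2, m3, m4⟩ := H.flip_mem hs.perp s.J s.v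
  have hdeg := H.flip_deg hs.perp hs.hp hs.hq f1 f2
  have hphi : (Phi D (flip s.J s.v s.p s.q) : ℤ) =
      Phi D s.J - 2 + if s.v + s.p + s.q ∈ D then 2 else 0 := by
    unfold Phi
    push_cast
    simp only [hdeg, Finset.sum_add_distrib, Finset.sum_sub_distrib, Finset.sum_ite_eq',
      hs.mem, if_true]
  have hle := hs.phi _ hmin
  have hw : s.v + s.p + s.q ∈ D := by
    by_contra hn
    simp only [hn, if_false] at hphi
    omega
  simp only [hw, if_true] at hphi
  have hphi' : ∀ J', IsMinJoin G D J' → Phi D (flip s.J s.v s.p s.q) ≤ Phi D J' := by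
    intro J' hJ'
    have := hs.phi _ hJ'
    omega
  set w := s.v + s.p + s.q with hwdef
  have e1 : s(w, w - s.q) = s(s.v + s.p, w) := by
    rw [Sym2.eq_swap]; congr 1; simp [hwdef]
  have e2 : s(w, w - s.p) = s(s.v + s.q, w) := by
    rw [Sym2.eq_swap]; congr 1; rw [hwdef]; abel
  have hodd := (hmin.1.2 w).2 hw
  rw [H.deg_eq hs.perp hmin.1.1 w, e1, e2] at hodd
  have m3' := m3.2 f1
  have m4' := m4.2 f2
  simp only [m3', m4', if_true] at hodd
  by_cases hA : s(w, w + s.q) ∈ flip s.J s.v s.p s.q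
  · have hB : s(w, w + s.p) ∉ flip s.J s.v s.p s.q := by
      intro hB; simp only [hA, hB, if_true] at hodd; exact absurd hodd (by decide)
    refine ⟨⟨flip s.J s.v s.p s.q, w, -s.p, s.q⟩, ⟨hmin, hphi', hw, H.neg _ _ hs.perp, ?_, hA, ?_, ?_⟩,
      ⟨rfl, rfl, Or.inl ⟨rfl, rfl⟩⟩⟩
    · show s(w, w + -s.p) ∈ _
      rw [← sub_eq_add_neg, e2]; exact m4'
    · show s(w, w - s.q) ∈ _
      rw [e1]; exact m3'
    · show s(w, w - -s.p) ∉ _
      rw [sub_neg_eq_add]; exact hB
  · have hB : s(w, w + s.p) ∈ flip s.J s.v s.p s.q := by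
      by_contra hB; simp only [hA, hB, if_false] at hodd; exact absurd hodd (by decide)
    refine ⟨⟨flip s.J s.v s.p s.q, w, -s.q, s.p⟩, ⟨hmin, hphi', hw,
      H.neg _ _ (H.swap _ _ hs.perp), ?_, hB, ?_, ?_⟩, ⟨rfl, rfl, Or.inr ⟨rfl, rfl⟩⟩⟩
    · show s(w, w + -s.q) ∈ _
      rw [← sub_eq_add_neg, e1]; exact m3'
    · show s(w, w - s.p) ∈ _
      rw [e2]; exact m4'
    · show s(w, w - -s.q) ∉ _
      rw [sub_neg_eq_add]; exact hA

/-- One step of the colouring invariant. -/
lemma colour_step {s : St A} (hs : Good G Perp D s) {B W : Set A} (hBW : Disjoint B W)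
    (hv : s.v ∈ B) (hr : ∀ z ∈ B ∪ W, Relation.ReflTransGen (Ori G s.J B W) s.v z) :
    Disjoint (insert (s.v + s.p + s.q) B) (insert (s.v + s.p) (insert (s.v + s.q) W)) ∧
    ∀ z ∈ (insert (s.v + s.p + s.q) B) ∪ (insert (s.v + s.p) (insert (s.v + s.q) W)),
      Relation.ReflTransGen (Ori G (flip s.J s.v s.p s.q) (insert (s.v + s.p + s.q) B)
        (insert (s.v + s.p) (insert (s.v + s.q) W))) (s.v + s.p + s.q) z := by
  obtain ⟨f1, f2⟩ := H.far hs
  have hmin := H.flip_min hs
  obtain ⟨c1, c2, c3, c4, c5, c6⟩ := H.corners hs.perp s.v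
  obtain ⟨m1, m2, m3, m4⟩ := H.flip_mem hs.perp s.J s.v
  obtain ⟨a1, a2, a3, a4⟩ := H.adjs hs.perp s.v
  have m1' : s(s.v, s.v + s.p) ∉ flip s.J s.v s.p s.q := fun h => m1.1 h hs.hp
  have m2' : s(s.v, s.v + s.q) ∉ flip s.J s.v s.p s.q := fun h => m2.1 h hs.hq
  have m3' := m3.2 f1
  have m4' := m4.2 f2
  set v := s.v
  set u := s.v + s.p with hu
  set u' := s.v + s.q with hu'
  set w := u + s.q with hw
  set J' := flip s.J s.v s.p s.q with hJ'
  set W' : Set A := insert u (insert u' W) with hW'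
  have huB : u ∉ B := fun h =>
    no_same_side hBW hs.min (hr u (Or.inl h)) (Or.inl ⟨hv, h⟩) hs.hp
  have hu'B : u' ∉ B := fun h =>
    no_same_side hBW hs.min (hr u' (Or.inl h)) (Or.inl ⟨hv, h⟩) hs.hq
  have hBW' : Disjoint B W' := by
    rw [Set.disjoint_left]
    rintro x hx (rfl | rfl | h)
    · exact huB hx
    · exact hu'B hx
    · exact Set.disjoint_left.1 hBW hx h
  have huW : u ∈ W' := Or.inl rfl
  have hu'W : u' ∈ W' := Or.inr (Or.inl rfl)
  -- transfer of an oriented edge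
  have transfer : ∀ (B' : Set A), B ⊆ B' → ∀ y z, Ori G s.J B W y z →
      Ori G J' B' W' y z ∨ s(y, z) = s(v, u) ∨ s(y, z) = s(v, u') ∨ s(y, z) = s(u, w) ∨
        s(y, z) = s(u', w) := by
    intro B' hB' y z hO
    by_cases h1 : s(y, z) = s(v, u)
    · exact Or.inr (Or.inl h1)
    by_cases h2 : s(y, z) = s(v, u')
    · exact Or.inr (Or.inr (Or.inl h2))
    by_cases h3 : s(y, z) = s(u, w)
    · exact Or.inr (Or.inr (Or.inr (Or.inl h3)))
    by_cases h4 : s(y, z) = s(u', w)
    · exact Or.inr (Or.inr (Or.inr (Or.inr h4)))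
    left
    have hm : s(y, z) ∈ J' ↔ s(y, z) ∈ s.J := mem_flip h1 h2 h3 h4
    refine ⟨hO.1, ?_⟩
    rcases hO.2 with ⟨b1, b2, b3⟩ | ⟨b1, b2, b3⟩
    · exact Or.inl ⟨hB' b1, Or.inr (Or.inr b2), hm.2 b3⟩
    · exact Or.inr ⟨Or.inr (Or.inr b1), hB' b2, fun h => b3 (hm.1 h)⟩
  have hwW : w ∉ W := by
    intro hwW
    have hwB : w ∉ B := fun h => Set.disjoint_left.1 hBW h hwW
    have uv : Ori G J' B W' u v := ⟨a1.symm, Or.inr ⟨huW, hv, by rw [Sym2.eq_swap]; exact m1'⟩⟩
    have key : ∀ z, Relation.ReflTransGen (Ori G s.J B W) v z →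
        Relation.ReflTransGen (Ori G J' B W') u z ∨ Relation.ReflTransGen (Ori G J' B W') u' z := by
      intro z hz
      induction hz with
      | refl => exact Or.inl (Relation.ReflTransGen.single uv)
      | @tail y z _ hyz ih =>
        have hB1 : y ∈ B ∨ z ∈ B := by
          rcases hyz.2 with ⟨b1, -, -⟩ | ⟨-, b2, -⟩
          · exact Or.inl b1
          · exact Or.inr b2
        rcases transfer B le_rfl y z hyz with h | h | h | h | h
        · exact ih.imp (fun h' => h'.tail h) (fun h' => h'.tail h)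
        · rcases Sym2.eq_iff.1 h with ⟨-, h2⟩ | ⟨-, h2⟩ <;> rw [h2]
          · exact Or.inl Relation.ReflTransGen.refl
          · exact Or.inl (Relation.ReflTransGen.single uv)
        · rcases Sym2.eq_iff.1 h with ⟨-, h2⟩ | ⟨-, h2⟩ <;> rw [h2]
          · exact Or.inr Relation.ReflTransGen.refl
          · exact Or.inl (Relation.ReflTransGen.single uv)
        · exfalso
          rcases Sym2.eq_iff.1 h with ⟨h1, h2⟩ | ⟨h1, h2⟩ <;> rw [h1, h2] at hB1
          · exact hB1.elim huB hwB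
          · exact hB1.elim hwB huB
        · exfalso
          rcases Sym2.eq_iff.1 h with ⟨h1, h2⟩ | ⟨h1, h2⟩ <;> rw [h1, h2] at hB1
          · exact hB1.elim hu'B hwB
          · exact hB1.elim hwB hu'B
    have hwW' : w ∈ W' := Or.inr (Or.inr hwW)
    rcases key w (hr w (Or.inr hwW)) with h | h
    · exact no_same_side hBW' hmin h (Or.inr ⟨huW, hwW'⟩) m3'
    · exact no_same_side hBW' hmin h (Or.inr ⟨hu'W, hwW'⟩) m4'
  refine ⟨?_, ?_⟩
  · rw [Set.disjoint_left]
    rintro x (rfl | hx) hx'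
    · rcases hx' with h | h | h
      · exact c5 h.symm
      · exact c6 h.symm
      · exact hwW h
    · exact Set.disjoint_left.1 hBW' hx hx'
  · have wu : Ori G J' (insert w B) W' w u :=
      ⟨a3.symm, Or.inl ⟨Or.inl rfl, huW, by rw [Sym2.eq_swap]; exact m3'⟩⟩
    have wu' : Ori G J' (insert w B) W' w u' :=
      ⟨a4.symm, Or.inl ⟨Or.inl rfl, hu'W, by rw [Sym2.eq_swap]; exact m4'⟩⟩
    have uv : Ori G J' (insert w B) W' u v :=
      ⟨a1.symm, Or.inr ⟨huW, Or.inr hv, by rw [Sym2.eq_swap]; exact m1'⟩⟩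
    have r1 := Relation.ReflTransGen.single wu
    have r2 := Relation.ReflTransGen.single wu'
    have r3 := r1.tail uv
    have r4 : Relation.ReflTransGen (Ori G J' (insert w B) W') w w := Relation.ReflTransGen.refl
    have key : ∀ z, Relation.ReflTransGen (Ori G s.J B W) v z →
        Relation.ReflTransGen (Ori G J' (insert w B) W') w z := by
      intro z hz
      induction hz with
      | refl => exact r3
      | @tail y z _ hyz ih =>
        rcases transfer (insert w B) (Set.subset_insert _ _) y z hyz with h | h | h | h | h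
        · exact ih.tail h
        all_goals
          rcases Sym2.eq_iff.1 h with ⟨-, h2⟩ | ⟨-, h2⟩ <;> rw [h2] <;>
            first | exact r1 | exact r2 | exact r3 | exact r4
    rintro z ((rfl | hz) | rfl | rfl | hz)
    · exact r4
    · exact key z (hr z (Or.inl hz))
    · exact r1
    · exact r2
    · exact key z (hr z (Or.inr hz))

section Seq
variable (s : ℕ → St A) (hg : ∀ n, Good G Perp D (s n)) (hst : ∀ n, Step (s n) (s (n + 1)))
include hg hst

lemma colour (i j : ℕ) : (s i).v ≠ (s j).v + (s j).p ∧ (s i).v ≠ (s j).v + (s j).q := by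
  have key : ∀ n, ∃ B W : Set A, Disjoint B W ∧ (∀ i ≤ n, (s i).v ∈ B) ∧
      (∀ j < n, (s j).v + (s j).p ∈ W ∧ (s j).v + (s j).q ∈ W) ∧
      ∀ z ∈ B ∪ W, Relation.ReflTransGen (Ori G (s n).J B W) (s n).v z := by
    intro n
    induction n with
    | zero =>
      refine ⟨{(s 0).v}, ∅, by simp, ?_, by simp, ?_⟩
      · intro i hi; obtain rfl : i = 0 := by omega
        rfl
      · rintro z (rfl | h)
        · exact Relation.ReflTransGen.refl
        · exact absurd h (by simp)
    | succ n ih =>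
      obtain ⟨B, W, h1, h2, h3, h4⟩ := ih
      obtain ⟨k1, k2⟩ := H.colour_step (hg n) h1 (h2 n le_rfl) h4
      refine ⟨_, _, k1, ?_, ?_, ?_⟩
      · intro i hi
        rcases Nat.lt_or_ge i (n + 1) with h | h
        · exact Or.inr (h2 i (by omega))
        · obtain rfl : i = n + 1 := by omega
          exact Or.inl (hst n).v
      · intro j hj
        rcases Nat.lt_or_ge j n with h | h
        · exact ⟨Or.inr (Or.inr (h3 j h).1), Or.inr (Or.inr (h3 j h).2)⟩
        · obtain rfl : j = n := by omega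
          exact ⟨Or.inl rfl, Or.inr (Or.inl rfl)⟩
      · rw [(hst n).J, (hst n).v]; exact k2
  obtain ⟨B, W, h1, h2, h3, -⟩ := key (i + j + 1)
  have hd := Set.disjoint_left.1 h1 (h2 i (by omega))
  exact ⟨fun h => hd (h ▸ (h3 j (by omega)).1), fun h => hd (h ▸ (h3 j (by omega)).2)⟩

/-- edges at a pivot change only when it is the source or the target -/
lemma edge_fixed (i r : ℕ) (y : A) (h1 : (s r).v ≠ (s i).v) (h2 : (s (r + 1)).v ≠ (s i).v) :
    s((s i).v, y) ∈ (s (r + 1)).J ↔ s((s i).v, y) ∈ (s r).J := by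
  obtain ⟨k1, k2⟩ := H.colour s hg hst i r
  rw [(hst r).v] at h2
  rw [(hst r).J]
  apply mem_flip <;> intro h <;> rcases Sym2.eq_iff.1 h with ⟨a, -⟩ | ⟨a, -⟩ <;>
    first | exact h1 a.symm | exact h2 a.symm | exact k1 a | exact k2 a

lemma axis_fixed (i r : ℕ) (hir : i ≤ r) :
    ((s r).v ≠ (s i).v ∧ s((s i).v, (s i).v + (s i).p) ∉ (s r).J ∧
      s((s i).v, (s i).v - (s i).p) ∉ (s r).J) ∨
    ((s r).v = (s i).v ∧ ((s r).q = (s i).q ∨ (s r).q = -(s i).q)) := by
  induction r, hir using Nat.le_induction with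
  | base => exact Or.inr ⟨rfl, Or.inl rfl⟩
  | succ r hir ih =>
    obtain ⟨c1, c2, c3, c4, c5, c6⟩ := H.corners (hg r).perp (s r).v
    obtain ⟨f1, f2, f3, f4, f5, f6⟩ := H.facts (hg r).perp
    rcases ih with ⟨h1, h2, h3⟩ | ⟨h1, h2⟩
    · by_cases h4 : (s (r + 1)).v = (s i).v
      · right
        refine ⟨h4, ?_⟩
        -- the forward edge at the new pivot was already there
        have hq := (hg (r + 1)).hq
        have hfw : s((s (r + 1)).v, (s (r + 1)).v + (s (r + 1)).q) ∈ (s r).J := by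
          rw [(hst r).J] at hq
          refine (mem_flip ?_ ?_ ?_ ?_).1 hq <;> rw [(hst r).v] <;> intro h <;>
            rcases Sym2.eq_iff.1 h with ⟨a, b⟩ | ⟨a, b⟩
          · exact c3 a.symm
          · exact c5 a.symm
          · exact c3 a.symm
          · exact c6 a.symm
          · exact c5 a.symm
          · rcases (hst r).dir with ⟨-, d⟩ | ⟨-, d⟩ <;> rw [d] at b
            · apply f6; apply eq_neg_of_add_eq_zero_left
              rw [add_assoc (_ + _)] at b; simpa using b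
            · apply f4; apply eq_neg_of_add_eq_zero_right
              rw [add_assoc (_ + _)] at b; simpa using b
          · exact c6 a.symm
          · rcases (hst r).dir with ⟨-, d⟩ | ⟨-, d⟩ <;> rw [d] at b
            · apply f4; apply eq_neg_of_add_eq_zero_left
              have : (s r).v + (s r).q + ((s r).p + (s r).q) = (s r).v + (s r).q :=
                Eq.trans (by abel) b
              simpa using this
            · apply f5; apply eq_neg_of_add_eq_zero_left
              have : (s r).v + (s r).q + ((s r).p + (s r).p) = (s r).v + (s r).q :=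
                Eq.trans (by abel) b
              simpa using this
        rw [h4] at hfw
        rcases H.dir (hg i).perp (H.swap _ _ (hg (r + 1)).perp) with d | d | d | d
        · rw [d] at hfw; exact absurd hfw h2
        · rw [d, ← sub_eq_add_neg] at hfw; exact absurd hfw h3
        · exact Or.inl d
        · exact Or.inr d
      · left
        exact ⟨h4, fun h => h2 ((H.edge_fixed s hg hst i r _ h1 h4).1 h),
          fun h => h3 ((H.edge_fixed s hg hst i r _ h1 h4).1 h)⟩
    · left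
      have e1 : s((s r).v, (s r).v + (s r).p) ∉ (s (r + 1)).J := by
        rw [(hst r).J]; exact fun h => (H.flip_mem (hg r).perp _ _).1.1 h (hg r).hp
      have e2 : s((s r).v, (s r).v - (s r).p) ∉ (s (r + 1)).J := by
        rw [(hst r).J]
        intro h
        refine (hg r).hp' ((mem_flip ?_ ?_ ?_ ?_).1 h) <;> intro h <;>
            rcases Sym2.eq_iff.1 h with ⟨a, b⟩ | ⟨a, b⟩
        · rw [sub_eq_add_neg] at b; exact f5 (add_left_cancel b).symm
        · exact c1 a
        · rw [sub_eq_add_neg] at b; exact f4 (by rw [← add_left_cancel b, neg_neg])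
        · exact c2 a
        · exact c1 a
        · exact c3 a
        · exact c2 a
        · exact c3 a
      refine ⟨?_, ?_⟩
      · rw [(hst r).v, ← h1]; exact c3.symm
      · rw [← h1]
        rcases H.axis (hg i).perp (hg r).perp h2 with d | d
        · rw [← d]; exact ⟨e1, e2⟩
        · rw [d, ← sub_eq_add_neg] at e1
          rw [d, sub_neg_eq_add] at e2
          exact ⟨e2, e1⟩

omit hg in
lemma diag (r : ℕ) : (s r).p + (s r).q = (s (r + 1)).q - (s (r + 1)).p := by
  rcases (hst r).dir with ⟨d1, d2⟩ | ⟨d1, d2⟩ <;> rw [d1, d2] <;> abel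

lemma no_reverse (k : ℕ) : ∀ i t, t = i + k → (s t).v = (s (i + 1)).v →
    (s t).p + (s t).q = -((s i).p + (s i).q) → False := by
  induction k using Nat.strong_induction_on with
  | _ k ih =>
    intro i t ht h1 h2
    rcases Nat.lt_or_ge k 1 with hk | hk
    · have ht' : t = i := by omega
      rw [ht'] at h2
      apply H.ne2 _ _ (H.neg' (hg i).perp)
      have h3 : ((s i).p + (s i).q) + ((s i).p + (s i).q) = 0 := by
        nth_rewrite 1 [h2]; abel
      have : (s i).p + (s i).p =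
        (((s i).p + (s i).q) + ((s i).p + (s i).q)) + (-(s i).q + -(s i).q) := by abel
      rw [this, h3]; abel
    rcases Nat.lt_or_ge k 2 with hk2 | hk2
    · have ht' : t = i + 1 := by omega
      rw [ht'] at h2
      rw [H.diag s hst i] at h2
      apply H.ne0 _ _ (H.swap _ _ (hg (i + 1)).perp)
      have : (s (i+1)).q + (s (i+1)).q =
        ((s (i+1)).p + (s (i+1)).q) + ((s (i+1)).q - (s (i+1)).p) := by abel
      rw [this, h2]; abel
    obtain ⟨r, rfl⟩ : ∃ r, t = r + 1 := ⟨t - 1, by omega⟩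
    have hax := H.axis_fixed s hg hst (i + 1) (r + 1) (by omega)
    rcases hax with ⟨hne, -⟩ | ⟨-, hq⟩
    · exact hne h1
    have hp := H.axis (hg (i + 1)).perp (hg (r + 1)).perp hq
    rw [H.diag s hst i] at h2
    have hpq : (s (r + 1)).p = (s (i + 1)).p ∧ (s (r + 1)).q = -(s (i + 1)).q := by
      rcases hp with d1 | d1 <;> rcases hq with d2 | d2
      · exfalso
        rw [d1, d2] at h2
        apply H.ne0 _ _ (H.swap _ _ (hg (i + 1)).perp)
        have : (s (i+1)).q + (s (i+1)).q =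
          ((s (i+1)).p + (s (i+1)).q) + ((s (i+1)).q - (s (i+1)).p) := by abel
        rw [this, h2]; abel
      · exact ⟨d1, d2⟩
      · exfalso
        rw [d1, d2] at h2
        apply H.ne2 _ _ (hg (i + 1)).perp
        have : (s (i+1)).q + (s (i+1)).q =
          (-(s (i+1)).p + (s (i+1)).q) + ((s (i+1)).q + (s (i+1)).p) := by abel
        rw [this, h2]; abel
      · exfalso
        rw [d1, d2] at h2
        apply H.ne0 _ _ (hg (i + 1)).perp
        have : (s (i+1)).p + (s (i+1)).p =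
          -(-(s (i+1)).p + -(s (i+1)).q) + ((s (i+1)).p - (s (i+1)).q) := by abel
        rw [this, h2]; abel
    have hd : (s r).p + (s r).q = -((s (i + 1)).p + (s (i + 1)).q) := by
      rw [H.diag s hst r, hpq.1, hpq.2]; abel
    refine ih (k - 2) (by omega) (i + 1) r (by omega) ?_ hd
    have e1 := (hst r).v
    have e2 := (hst (i + 1)).v
    rw [e2, ← h1, e1, add_assoc (s r).v, hd]; abel

/-- a flipped plaquette forces the next plaquette, if the walk is periodic -/
lemma next_flip (N : ℕ) (hN : 0 < N) (hper : ∀ n, s (n + N) = s n) (t : ℕ) (a b : A)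
    (hab : ((s t).p = a ∧ (s t).q = b) ∨ ((s t).p = b ∧ (s t).q = a)) :
    ∃ r, (s r).v = (s t).v + a + b ∧
      (((s r).p = -a ∧ (s r).q = b) ∨ ((s r).p = b ∧ (s r).q = -a)) := by
  have hP : Perp a b := by
    rcases hab with ⟨rfl, rfl⟩ | ⟨rfl, rfl⟩
    · exact (hg t).perp
    · exact H.swap _ _ (hg t).perp
  have hw : (s (t + 1)).v = (s t).v + a + b := by
    rw [(hst t).v]
    rcases hab with ⟨rfl, rfl⟩ | ⟨rfl, rfl⟩
    · rfl
    · abel
  have hsum : (s t).p + (s t).q = a + b := by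
    rcases hab with ⟨rfl, rfl⟩ | ⟨rfl, rfl⟩
    · rfl
    · abel
  set e : Sym2 A := s((s t).v + b, (s t).v + a + b) with he
  have e0 : e ∉ (s t).J ∧ e ∈ (s (t + 1)).J := by
    obtain ⟨f1, f2⟩ := H.far (hg t)
    obtain ⟨-, -, m3, m4⟩ := H.flip_mem (hg t).perp (s t).J (s t).v
    rw [(hst t).J]
    rcases hab with ⟨rfl, rfl⟩ | ⟨rfl, rfl⟩
    · exact ⟨f2, m4.2 f2⟩
    · rw [he, add_right_comm]; exact ⟨f1, m3.2 f1⟩
  have hex : ∃ r, t + 1 ≤ r ∧ e ∈ (s r).J ∧ e ∉ (s (r + 1)).J := by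
    by_contra hn
    push Not at hn
    have : ∀ r, t + 1 ≤ r → e ∈ (s r).J := by
      intro r hr
      induction r, hr using Nat.le_induction with
      | base => exact e0.2
      | succ r hr ih => exact hn r hr ih
    have h2 := this (t + N) (by omega)
    rw [hper] at h2
    exact e0.1 h2
  obtain ⟨r, hr, h1, h2⟩ := hex
  have hsrc : e = s((s r).v, (s r).v + (s r).p) ∨ e = s((s r).v, (s r).v + (s r).q) := by
    by_contra hn
    push Not at hn
    obtain ⟨f1, f2⟩ := H.far (hg r)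
    apply h2
    rw [(hst r).J]
    refine (mem_flip hn.1 hn.2 ?_ ?_).2 h1
    · intro h; rw [h] at h1; exact f1 h1
    · intro h; rw [h] at h1; exact f2 h1
  have hcol : (s r).v ≠ (s t).v + b := by
    obtain ⟨k1, k2⟩ := H.colour s hg hst r t
    rcases hab with ⟨-, rfl⟩ | ⟨rfl, -⟩
    · exact k2
    · exact k1
  have hrev : (s r).v = (s t).v + a + b → (s r).p + (s r).q = -(a + b) → False := by
    intro k1 k2
    exact H.no_reverse s hg hst (r - t) t r (by omega) (k1.trans hw.symm) (by rw [hsum]; exact k2)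
  rcases hsrc with h | h <;> rcases Sym2.eq_iff.1 h with ⟨k1, k2⟩ | ⟨k1, k2⟩
  · exact absurd k1.symm hcol
  · have hp : (s r).p = -a := by
      rw [← k2] at k1
      have : (s t).v + a + b + (s r).p = (s t).v + a + b + -a := by rw [← k1]; abel
      exact add_left_cancel this
    rcases H.axis (H.swap _ _ hP) (H.swap _ _ (hg r).perp) (Or.inr hp) with d | d
    · exact ⟨r, k2.symm, Or.inl ⟨hp, d⟩⟩
    · exact (hrev k2.symm (by rw [hp, d]; abel)).elim
  · exact absurd k1.symm hcol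
  · have hq : (s r).q = -a := by
      rw [← k2] at k1
      have : (s t).v + a + b + (s r).q = (s t).v + a + b + -a := by rw [← k1]; abel
      exact add_left_cancel this
    rcases H.axis (H.swap _ _ hP) (hg r).perp (Or.inr hq) with d | d
    · exact ⟨r, k2.symm, Or.inr ⟨d, hq⟩⟩
    · exact (hrev k2.symm (by rw [hq, d]; abel)).elim

lemma not_periodic (N : ℕ) (hN : 0 < N) (hper : ∀ n, s (n + N) = s n) : False := by
  have key : ∀ k : ℕ, ∃ r, (s r).v = (s 0).v + k • ((s 0).q + (s 0).q) ∧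
      (((s r).p = (s 0).p ∧ (s r).q = (s 0).q) ∨ ((s r).p = (s 0).q ∧ (s r).q = (s 0).p)) := by
    intro k
    induction k with
    | zero => exact ⟨0, by simp, Or.inl ⟨rfl, rfl⟩⟩
    | succ k ih =>
      obtain ⟨r, h1, h2⟩ := ih
      obtain ⟨r1, h3, h4⟩ := H.next_flip s hg hst N hN hper r _ _ h2
      obtain ⟨r2, h5, h6⟩ := H.next_flip s hg hst N hN hper r1 _ _ h4
      refine ⟨r2, ?_, by simpa only [neg_neg] using h6⟩
      rw [h5, h3, h1, succ_nsmul]; abel
  obtain ⟨k, hk⟩ := H.odd _ _ (H.swap _ _ (hg 0).perp)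
  obtain ⟨r, h1, -⟩ := key k
  rw [hk] at h1
  exact (H.colour s hg hst r 0).2 h1

end Seq

lemma no_good [Finite A] (s0 : St A) (h0 : Good G Perp D s0) : False := by
  classical
  have hex : ∀ s : {s // Good G Perp D s}, ∃ t : {s // Good G Perp D s}, Step s.1 t.1 := by
    intro s
    obtain ⟨t, h1, h2⟩ := H.exists_step s.2
    exact ⟨⟨t, h1⟩, h2⟩
  choose F hF using hex
  haveI : Finite (St A) := by
    haveI := Fintype.ofFinite A
    refine Finite.of_injective (fun s : St A => (s.J, s.v, s.p, s.q)) ?_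
    rintro ⟨a, b, c, d⟩ ⟨a', b', c', d'⟩ h
    simp only [Prod.mk.injEq] at h
    obtain ⟨rfl, rfl, rfl, rfl⟩ := h
    rfl
  obtain ⟨m, n, hmn, hh⟩ := Finite.exists_ne_map_eq_of_infinite (fun n : ℕ => F^[n] ⟨s0, h0⟩)
  wlog hlt : m < n generalizing m n
  · exact this n m hmn.symm hh.symm (by omega)
  refine H.not_periodic (fun k => (F^[k + m] ⟨s0, h0⟩).1) (fun k => (F^[k + m] ⟨s0, h0⟩).2)
    (fun k => ?_) (n - m) (by omega) (fun k => ?_)
  · rw [show k + 1 + m = (k + m) + 1 by ring, Function.iterate_succ_apply']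
    exact hF _
  · have hh' : F^[m] ⟨s0, h0⟩ = F^[n] ⟨s0, h0⟩ := hh
    rw [show k + (n - m) + m = k + n by omega, Function.iterate_add_apply,
      Function.iterate_add_apply, hh']

theorem main [Finite A] (hG : G.Preconnected) {p q : A} (hpq : Perp p q) (hD : Even D.card) :
    ∃ J, IsMinJoin G D J ∧ ∀ v ∈ D, joinDeg J v = 1 := by
  classical
  obtain ⟨J0, hJ0⟩ := exists_join G hG D hD
  obtain ⟨J1, hJ1⟩ : ∃ J, IsMinJoin G D J := by
    obtain ⟨J, h1, h2⟩ := (measure (fun J : Finset (Sym2 A) => J.card)).wf.has_min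
      {J | IsJoin G D J} ⟨J0, hJ0⟩
    exact ⟨J, h1, fun J' hJ' => not_lt.1 (h2 J' hJ')⟩
  obtain ⟨J, h1, h2⟩ := (measure (fun J : Finset (Sym2 A) => Phi D J)).wf.has_min
      {J | IsMinJoin G D J} ⟨J1, hJ1⟩
  have h2' : ∀ J', IsMinJoin G D J' → Phi D J ≤ Phi D J' := fun J' hJ' => not_lt.1 (h2 J' hJ')
  refine ⟨J, h1, fun v hv => ?_⟩
  by_contra hne
  have hodd := (h1.1.2 v).2 hv
  rw [H.deg_eq hpq h1.1.1 v] at hodd hne
  by_cases a1 : s(v, v + p) ∈ J <;> by_cases a2 : s(v, v - p) ∈ J <;>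
    by_cases a3 : s(v, v + q) ∈ J <;> by_cases a4 : s(v, v - q) ∈ J <;>
    simp only [a1, a2, a3, a4, if_true, if_false] at hodd hne <;>
    first
      | exact absurd hodd (by decide)
      | exact hne (by decide)
      | exact H.no_good ⟨J, v, q, p⟩ ⟨h1, h2', hv, H.swap _ _ hpq, a3, a1, a2, a4⟩
      | exact H.no_good ⟨J, v, p, q⟩ ⟨h1, h2', hv, hpq, a1, a3, a4, a2⟩
      | exact H.no_good ⟨J, v, -q, p⟩ ⟨h1, h2', hv, H.neg _ _ (H.swap _ _ hpq),
          by simpa only [← sub_eq_add_neg] using a4, a1, a2,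
          by simpa only [sub_neg_eq_add] using a3⟩
      | exact H.no_good ⟨J, v, -p, q⟩ ⟨h1, h2', hv, H.neg _ _ hpq,
          by simpa only [← sub_eq_add_neg] using a2, a3, a4,
          by simpa only [sub_neg_eq_add] using a1⟩

end Grid

end Pool.Agent.MP_6e06a5_co

end

section

namespace Pool.Agent.MP_6e06a5_co

open SimpleGraph

/-- perpendicular unit vectors -/
def PerpT {R : Type*} [Ring R] (p q : R × R) : Prop :=
  ((p = (1, 0) ∨ p = (-1, 0)) ∧ (q = (0, 1) ∨ q = (0, -1))) ∨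
  ((q = (1, 0) ∨ q = (-1, 0)) ∧ (p = (0, 1) ∨ p = (0, -1)))

lemma grid_of_ring {R : Type*} [CommRing R] (C : SimpleGraph R)
    (hC : ∀ u v, C.Adj u v ↔ u - v = 1 ∨ v - u = 1) (h2 : (1 : R) + 1 ≠ 0)
    (k : ℕ) (hk : (k : R) * 2 = 1) : Grid (C □ C) PerpT := by
  have h2' : (-1 : R) + -1 ≠ 0 := fun h => h2 (by linear_combination -h)
  have hC' : ∀ u v, C.Adj u v ↔ v = u + 1 ∨ v = u - 1 := by
    intro u v
    rw [hC]
    constructor
    · rintro (h | h)
      · right; linear_combination -h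
      · left; linear_combination h
    · rintro (h | h)
      · right; linear_combination h
      · left; linear_combination -h
  refine ⟨?_, ?_, ?_, ?_, ?_, ?_⟩
  · rintro p q hpq ⟨x1, x2⟩ ⟨y1, y2⟩
    rw [boxProd_adj, hC', hC']
    rcases hpq with ⟨rfl | rfl, rfl | rfl⟩ | ⟨rfl | rfl, rfl | rfl⟩ <;>
      simp only [Prod.mk_add_mk, Prod.mk_sub_mk, Prod.mk.injEq, add_zero, sub_zero, sub_neg_eq_add,
        ← sub_eq_add_neg, @eq_comm _ x1 y1, @eq_comm _ x2 y2] <;> tauto
  · rintro p q (⟨rfl | rfl, h⟩ | ⟨h, rfl | rfl⟩)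
    · exact Or.inl ⟨Or.inr (by simp), h⟩
    · exact Or.inl ⟨Or.inl (by simp), h⟩
    · exact Or.inr ⟨h, Or.inr (by simp)⟩
    · exact Or.inr ⟨h, Or.inl (by simp)⟩
  · rintro p q (h | h)
    · exact Or.inr h
    · exact Or.inl h
  · rintro p q (⟨rfl | rfl, -⟩ | ⟨-, rfl | rfl⟩) h
    · exact h2 (congrArg Prod.fst h)
    · exact h2' (congrArg Prod.fst h)
    · exact h2 (congrArg Prod.snd h)
    · exact h2' (congrArg Prod.snd h)
  · rintro p q (⟨rfl | rfl, rfl | rfl⟩ | ⟨rfl | rfl, rfl | rfl⟩) h <;>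
      simp only [Prod.mk_add_mk, Prod.mk.injEq, add_zero] at h <;>
      first | exact h2 h.1 | exact h2' h.1 | exact h2 h.2 | exact h2' h.2
  · rintro p q -
    refine ⟨k, ?_⟩
    ext
    · simp only [nsmul_eq_mul, Prod.fst_mul, Prod.fst_natCast, Prod.fst_add]
      linear_combination p.1 * hk
    · simp only [nsmul_eq_mul, Prod.snd_mul, Prod.snd_natCast, Prod.snd_add]
      linear_combination p.2 * hk

theorem torus_main (L : ℕ) (hL : 3 ≤ L) (hodd : Odd L) (D : Finset (Fin L × Fin L))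
    (hD : Even D.card) :
    ∃ J, IsMinJoin (cycleGraph L □ cycleGraph L) D J ∧ ∀ v ∈ D, joinDeg J v = 1 := by
  obtain ⟨n, rfl⟩ : ∃ n, L = n + 3 := ⟨L - 3, by omega⟩
  obtain ⟨k, hk⟩ := hodd
  have H : Grid (A := ZMod (n + 3) × ZMod (n + 3)) (cycleGraph (n + 3) □ cycleGraph (n + 3)) PerpT := by
    refine grid_of_ring (R := ZMod (n + 3)) (cycleGraph (n + 3)) (fun u v => Iff.rfl) ?_ (k + 1) ?_
    · intro h
      have : ((2 : ℕ) : ZMod (n + 3)) = 0 := by push_cast; linear_combination h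
      rw [ZMod.natCast_eq_zero_iff] at this
      have := Nat.le_of_dvd (by norm_num) this
      omega
    · have : ((2 * k + 1 : ℕ) : ZMod (n + 3)) = 0 := by
        rw [← hk]; exact ZMod.natCast_self _
      push_cast at this ⊢
      linear_combination this
  exact H.main (p := (1, 0)) (q := (0, 1))
    (cycleGraph_preconnected.boxProd cycleGraph_preconnected) (Or.inl ⟨Or.inl rfl, Or.inl rfl⟩) hD

end Pool.Agent.MP_6e06a5_co

end
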